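import Pool.Agent.Y969.SM.StmT
import Pool.Agent.TH806.N4.Defs

set_option autoImplicit false

/-!
Project SX (helper969), statement UB0: the twisted moment of the model of the fourth power of zeta is bounded from
above, by the twisted first moment of the square (`P_FM`), the twisted second moment of a long polynomial (`S_TWC`)
and the two arithmetic sums (`S_ARS`).
-/

namespace Pool.Agent.Y809.SX

open Finset Filter Topology MeasureTheory Complex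
open Pool.Agent.H306R2.SM (om cl Yf)
open Pool.Agent.H262R4.TM (Rng Ck)
open Pool.Agent.H448R2.GC (cs cu cu_nonneg cu_le_one)
open Pool.Agent.W184.NZ (mh w1 wl wz Mn w1_nonneg wl_nonneg wl_le mh_eq mh_norm_le mh_cont)
open Pool.Agent.TH806 (DP BF DP_cont DP_norm cu_out)
open Pool.Agent.Y969.SM

noncomputable section

/-- integrability against the density -/
lemma cint {κ : ℕ} {δ : ℝ} (hδ : 0 < δ) {G : ℝ → ℂ} (hG : Continuous G) {C : ℝ} (A : ℕ)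
    (h1 : ∀ t, 0 ≤ t → ‖G t‖ ≤ C * (1 + t) ^ A) :
    IntegrableOn (fun t => ((om κ δ t : ℝ) : ℂ) * G t) (Set.Ioi 0) := by
  have h2 := (Pool.Agent.H262R4.TM.TTW.om_poly κ A hδ).const_mul C
  refine Integrable.mono' h2 ?_ ?_
  · exact ((Complex.continuous_ofReal.comp (Pool.Agent.H262R4.TM.TTW.om_cont κ _)).mul hG).aestronglyMeasurable
  · refine (ae_restrict_iff' measurableSet_Ioi).mpr (Eventually.of_forall fun t ht => ?_)
    have ht0 : 0 < t := ht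
    have hn := Pool.Agent.H262R4.TM.TTW.om_nonneg κ hδ ht0.le
    rw [norm_mul, Complex.norm_real, Real.norm_eq_abs, abs_of_nonneg hn]
    have := mul_le_mul_of_nonneg_left (h1 t ht0.le) hn
    linarith

lemma mh_cj (t : ℝ) {m n : ℕ} (hm : m ≠ 0) (hn : n ≠ 0) :
    (starRingEnd ℂ) (mh t (m, n)) = mh t (n, m) := by
  rw [mh_eq t m hn, mh_eq t n hm, map_mul, Complex.conj_conj, mul_comm]

lemma mh_mul3 (t : ℝ) (m n h : ℕ) {l : ℕ} (hl : l ≠ 0) :
    (m : ℂ) ^ (-(cl t)) * (n : ℂ) ^ (-(cl t)) * mh t (h, l) = mh t (m * n * h, l) := by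
  rw [mh_eq t h hl, mh_eq t (m * n * h) hl, Nat.cast_mul, Complex.natCast_mul_natCast_cpow, Nat.cast_mul,
    Complex.natCast_mul_natCast_cpow]
  ring

/-- the smoothed sums as Dirichlet polynomials -/
lemma cs_DP {k N : ℕ} {c D : ℝ} (hc : 0 < c) (hN : ⌊Real.exp (D + k * c)⌋₊ ≤ N) (t : ℝ) :
    cs k c D (cl t) = DP (fun m => ((cu k c (Real.log m - D) : ℝ) : ℂ)) N t := by
  unfold cs DP
  refine sum_subset (Icc_subset_Icc le_rfl hN) fun m hm hm' => ?_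
  rw [mem_Icc] at hm
  rw [cu_out hc (by omega) hm', Complex.ofReal_zero, zero_mul]

lemma DP_sub' (f g : ℕ → ℂ) (M : ℕ) (t : ℝ) : DP (fun m => f m - g m) M t = DP f M t - DP g M t := by
  unfold DP
  rw [← sum_sub_distrib]
  exact sum_congr rfl fun m _ => by ring

lemma zc : Continuous fun t : ℝ => riemannZeta (cl t) := Pool.Agent.H262R4.TM.TTW.zeta_cont

lemma zb {t : ℝ} (ht : 0 ≤ t) : ‖riemannZeta (cl t)‖ ^ 2 ≤ 24 ^ 2 * (1 + t) ^ 4 := by
  have h1 := Pool.Agent.H262R4.TM.TTW.zeta_cl_bound t ht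
  calc ‖riemannZeta (cl t)‖ ^ 2 ≤ (24 * (1 + t) ^ 2) ^ 2 := pow_le_pow_left₀ (norm_nonneg _) h1 2
    _ = _ := by ring

/-- integrability of a square of zeta times a bounded function -/
lemma zint {κ : ℕ} {δ : ℝ} (hδ : 0 < δ) {Z G : ℝ → ℂ} (hZ : Continuous Z) (hG : Continuous G) {B : ℝ}
    (hZ2 : ∀ t, ‖Z t‖ = ‖riemannZeta (cl t)‖ ^ 2) (h1 : ∀ t, ‖G t‖ ≤ B) :
    IntegrableOn (fun t => ((om κ δ t : ℝ) : ℂ) * (Z t * G t)) (Set.Ioi 0) := by
  refine cint hδ (hZ.mul hG) (C := 24 ^ 2 * B) 4 fun t ht => ?_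
  rw [norm_mul, hZ2]
  calc ‖riemannZeta (cl t)‖ ^ 2 * ‖G t‖ ≤ (24 ^ 2 * (1 + t) ^ 4) * B :=
        mul_le_mul (zb ht) (h1 t) (norm_nonneg _) (by positivity)
    _ = _ := by ring

/-- the first moment of a square of a polynomial, twisted -/
lemma fm_bound {κ : ℕ} {T' θ : ℝ} (hδ : 0 < (κ:ℝ) / T')
    (hFM : ∀ h l : ℕ, 1 ≤ h → 1 ≤ l → (h : ℝ) ≤ T' ^ θ → (l : ℝ) ≤ T' →
      ‖(∫ t in Set.Ioi (0 : ℝ), ((om κ (κ / T') t : ℝ) : ℂ) *
        ((starRingEnd ℂ) (riemannZeta (cl t)) ^ 2 * mh t (h, l))) -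
        (if l ∣ h then (((h / l).divisors.card : ℝ) / (h : ℝ) : ℂ) else 0)‖ ≤ T' ^ (-1 : ℝ))
    {M h l : ℕ} {f : ℕ → ℂ} (hf : ∀ n, n ≠ 0 → ‖f n‖ ≤ 1) (hh : 1 ≤ h) (hl : 1 ≤ l)
    (hM : ((M * M * h : ℕ) : ℝ) ≤ T' ^ θ) (hlT : (l : ℝ) ≤ T') (_hT : 0 ≤ T') :
    ‖∫ t in Set.Ioi (0 : ℝ), ((om κ (κ / T') t : ℝ) : ℂ) *
      ((starRingEnd ℂ) (riemannZeta (cl t)) ^ 2 * (DP f M t ^ 2 * mh t (h, l)))‖ ≤
    (∑ m ∈ Icc 1 M, ∑ n ∈ Icc 1 M, (if l ∣ m * n * h then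
      ((m * n * h / l).divisors.card : ℝ) / ((m : ℝ) * n * h) else 0)) + (M : ℝ) ^ 2 * T' ^ (-1 : ℝ) := by
  have hzc2 : Continuous fun t => (starRingEnd ℂ) (riemannZeta (cl t)) ^ 2 :=
    (Complex.continuous_conj.comp zc).pow 2
  have hi : ∀ m ∈ Icc 1 M, ∀ n ∈ Icc 1 M, IntegrableOn (fun t => ((om κ (κ / T') t : ℝ) : ℂ) *
      ((starRingEnd ℂ) (riemannZeta (cl t)) ^ 2 * mh t (m * n * h, l))) (Set.Ioi 0) := by
    intro m hm n hn
    rw [mem_Icc] at hm hn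
    have h0 : m * n * h ≠ 0 := by
      have : 0 < m * n * h := Nat.mul_pos (Nat.mul_pos (by omega) (by omega)) (by omega)
      omega
    refine zint hδ hzc2 (mh_cont (x := (m * n * h, l)) h0 (by simp only; omega)) (B := 1) (fun t => ?_) fun t => ?_
    · rw [norm_pow, RCLike.norm_conj]
    · exact mh_norm_le (x := (m * n * h, l)) h0 (by simp only; omega)
  have e : ∀ t : ℝ, ((om κ (κ / T') t : ℝ) : ℂ) *
      ((starRingEnd ℂ) (riemannZeta (cl t)) ^ 2 * (DP f M t ^ 2 * mh t (h, l))) =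
      ∑ m ∈ Icc 1 M, ∑ n ∈ Icc 1 M, (f m * f n) * (((om κ (κ / T') t : ℝ) : ℂ) *
        ((starRingEnd ℂ) (riemannZeta (cl t)) ^ 2 * mh t (m * n * h, l))) := by
    intro t
    have e1 : DP f M t ^ 2 * mh t (h, l) = ∑ m ∈ Icc 1 M, ∑ n ∈ Icc 1 M, (f m * f n) * mh t (m * n * h, l) := by
      unfold DP
      rw [sq, sum_mul_sum, sum_mul]
      refine sum_congr rfl fun m _ => ?_
      rw [sum_mul]
      refine sum_congr rfl fun n _ => ?_
      rw [← mh_mul3 t m n h (by omega : l ≠ 0)]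
      ring
    rw [e1, mul_sum, mul_sum]
    refine sum_congr rfl fun m _ => ?_
    rw [mul_sum, mul_sum]
    refine sum_congr rfl fun n _ => ?_
    ring
  simp_rw [e]
  rw [integral_finsetSum _ fun m hm => integrable_finsetSum _ fun n hn => (hi m hm n hn).const_mul _]
  have e2 : ∀ m ∈ Icc 1 M, (∫ t in Set.Ioi (0 : ℝ), ∑ n ∈ Icc 1 M, (f m * f n) * (((om κ (κ / T') t : ℝ) : ℂ) *
        ((starRingEnd ℂ) (riemannZeta (cl t)) ^ 2 * mh t (m * n * h, l)))) =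
      ∑ n ∈ Icc 1 M, (f m * f n) * ∫ t in Set.Ioi (0 : ℝ), (((om κ (κ / T') t : ℝ) : ℂ) *
        ((starRingEnd ℂ) (riemannZeta (cl t)) ^ 2 * mh t (m * n * h, l))) := by
    intro m hm
    rw [integral_finsetSum _ fun n hn => (hi m hm n hn).const_mul _]
    exact sum_congr rfl fun n _ => integral_const_mul _ _
  rw [sum_congr rfl e2]
  have e3 : (M : ℝ) ^ 2 * T' ^ (-1 : ℝ) = ∑ m ∈ Icc 1 M, ∑ n ∈ Icc 1 M, T' ^ (-1 : ℝ) := by
    simp only [sum_const, Nat.card_Icc, Nat.add_sub_cancel, nsmul_eq_mul]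
    ring
  rw [e3, ← sum_add_distrib]
  refine (norm_sum_le _ _).trans (sum_le_sum fun m hm => ?_)
  rw [← sum_add_distrib]
  refine (norm_sum_le _ _).trans (sum_le_sum fun n hn => ?_)
  rw [mem_Icc] at hm hn
  have hpos : 0 < m * n * h := Nat.mul_pos (Nat.mul_pos (by omega) (by omega)) (by omega)
  have hle : ((m * n * h : ℕ) : ℝ) ≤ T' ^ θ := by
    refine le_trans ?_ hM
    exact_mod_cast Nat.mul_le_mul_right h (Nat.mul_le_mul hm.2 hn.2)
  have h1 := hFM (m * n * h) l hpos hl hle hlT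
  set J := ∫ t in Set.Ioi (0 : ℝ), (((om κ (κ / T') t : ℝ) : ℂ) *
        ((starRingEnd ℂ) (riemannZeta (cl t)) ^ 2 * mh t (m * n * h, l))) with hJ
  have h2 : ‖f m * f n‖ ≤ 1 := by
    rw [norm_mul]
    calc ‖f m‖ * ‖f n‖ ≤ 1 * 1 := mul_le_mul (hf m (by omega)) (hf n (by omega)) (norm_nonneg _) zero_le_one
      _ = 1 := one_mul 1
  have h3 : ‖(if l ∣ m * n * h then (((m * n * h / l).divisors.card : ℝ) / ((m * n * h : ℕ) : ℝ) : ℂ) else 0)‖ =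
      if l ∣ m * n * h then ((m * n * h / l).divisors.card : ℝ) / ((m : ℝ) * n * h) else 0 := by
    split_ifs with hd
    · rw [← Complex.ofReal_div, Complex.norm_real, Real.norm_eq_abs, abs_of_nonneg (by positivity)]
      push_cast
      rfl
    · simp
  rw [norm_mul]
  calc ‖f m * f n‖ * ‖J‖ ≤ 1 * ‖J‖ := mul_le_mul_of_nonneg_right h2 (norm_nonneg _)
    _ = ‖J‖ := one_mul _
    _ ≤ ‖(if l ∣ m * n * h then (((m * n * h / l).divisors.card : ℝ) / ((m * n * h : ℕ) : ℝ) : ℂ) else 0)‖ +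
        ‖J - (if l ∣ m * n * h then (((m * n * h / l).divisors.card : ℝ) / ((m * n * h : ℕ) : ℝ) : ℂ) else 0)‖ := by
        have := norm_add_le (if l ∣ m * n * h then
          (((m * n * h / l).divisors.card : ℝ) / ((m * n * h : ℕ) : ℝ) : ℂ) else 0)
          (J - (if l ∣ m * n * h then (((m * n * h / l).divisors.card : ℝ) / ((m * n * h : ℕ) : ℝ) : ℂ) else 0))
        rw [add_sub_cancel] at this
        exact this
    _ ≤ _ := add_le_add h3.le h1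

/-- the bilinear main term -/
lemma bf_bound {κ : ℕ} {T' A N : ℝ} {M h l : ℕ} {f : ℕ → ℂ} (hf : ∀ n, n ≠ 0 → ‖f n‖ ≤ 1) (hh : 1 ≤ h)
    (hl : 1 ≤ l) (hA : |Real.log (Yf κ T') + Ck κ| ≤ A) (h1 : ((M * h : ℕ) : ℝ) ≤ N) (h2 : ((M * l : ℕ) : ℝ) ≤ N) :
    ‖BF κ T' f M (h, l)‖ ≤ (A + 2 * Real.log N) *
      ∑ m ∈ Icc 1 M, ∑ n ∈ Icc 1 M, (Nat.gcd (m * h) (n * l) : ℝ) / ((m : ℝ) * h * (n * l)) := by
  unfold BF
  rw [mul_sum]
  refine (norm_sum_le _ _).trans (sum_le_sum fun m hm => ?_)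
  rw [mul_sum]
  refine (norm_sum_le _ _).trans (sum_le_sum fun n hn => ?_)
  rw [mem_Icc] at hm hn
  simp only
  have m0 : m * h ≠ 0 := by have : 0 < m * h := Nat.mul_pos (by omega) (by omega); omega
  have n0 : n * l ≠ 0 := by have : 0 < n * l := Nat.mul_pos (by omega) (by omega); omega
  have e1 : (Nat.gcd (m * h) (n * l) : ℝ) / ((m : ℝ) * h * (n * l)) = w1 (m * h, n * l) := by
    unfold w1
    push_cast
    rfl
  rw [e1]
  have q1 := w1_nonneg (m * h, n * l)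
  have q2 : 0 ≤ wl (m * h, n * l) := wl_nonneg m0 n0
  have q3 : wl (m * h, n * l) ≤ 2 * Real.log N * w1 (m * h, n * l) := by
    refine wl_le m0 n0 (le_trans ?_ h1) (le_trans ?_ h2)
    · simp only
      exact_mod_cast Nat.mul_le_mul_right h hm.2
    · simp only
      exact_mod_cast Nat.mul_le_mul_right l hn.2
  have q4 : |Mn κ T' (m * h, n * l)| ≤ (A + 2 * Real.log N) * w1 (m * h, n * l) := by
    unfold Mn
    refine (abs_sub _ _).trans ?_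
    rw [abs_mul, abs_of_nonneg q1, abs_of_nonneg q2, add_mul]
    exact add_le_add (mul_le_mul_of_nonneg_right hA q1) q3
  rw [norm_mul, norm_mul, Complex.norm_real, Real.norm_eq_abs, RCLike.norm_conj]
  have q5 : ‖f m‖ * ‖f n‖ ≤ 1 * 1 := mul_le_mul (hf m (by omega)) (hf n (by omega)) (norm_nonneg _) zero_le_one
  rw [one_mul] at q5
  calc ‖f m‖ * ‖f n‖ * |Mn κ T' (m * h, n * l)| ≤ 1 * |Mn κ T' (m * h, n * l)| :=
        mul_le_mul_of_nonneg_right q5 (abs_nonneg _)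
    _ = _ := one_mul _
    _ ≤ _ := q4

/-- the size of the logarithm -/
lemma lg_bound {κ : ℕ} {T' L : ℝ} (hκ : 1 ≤ κ) (hT' : 0 < T') (h0 : 3 ≤ Real.log T')
    (h1 : Real.log T' + 2 ≤ 2 * L) : |Real.log (Yf κ T') + Ck κ| ≤ 2 * L := by
  have hk : (0:ℝ) < κ := by exact_mod_cast hκ
  have e : Real.log (Yf κ T') = Real.log T' - Real.log (2 * Real.pi) - Real.log κ := by
    unfold Yf
    rw [Real.log_div hT'.ne' (by positivity), Real.log_mul (by positivity) hk.ne']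
    ring
  have a1 : Real.log κ ≤ (harmonic κ : ℝ) := by
    refine le_trans (Real.log_le_log hk ?_) (log_add_one_le_harmonic κ)
    push_cast
    linarith
  have a2 : (harmonic κ : ℝ) ≤ 1 + Real.log κ := harmonic_le_one_add_log κ
  have a3 := Real.eulerMascheroniConstant_lt_two_thirds
  have a4 := Real.one_half_lt_eulerMascheroniConstant
  have a5 : 0 ≤ Real.log (2 * Real.pi) := Real.log_nonneg (by have := Real.pi_gt_three; linarith)
  have a6 : Real.log (2 * Real.pi) ≤ 2 := by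
    rw [Real.log_le_iff_le_exp (by positivity)]
    have h3 := Real.pi_lt_d2
    have h4 : (2.7:ℝ) ^ 2 ≤ Real.exp 2 := by
      have h5 := Real.exp_one_gt_d9
      have h6 : Real.exp 2 = Real.exp 1 ^ 2 := by rw [← Real.exp_nat_mul]; norm_num
      rw [h6]
      exact pow_le_pow_left₀ (by norm_num) (by linarith) 2
    norm_num at h4
    linarith
  rw [e]
  unfold Ck
  rw [abs_of_nonneg (by linarith)]
  linarith


/-- integrability of the second part -/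
lemma wint {κ : ℕ} {T' : ℝ} (hδ : 0 < (κ:ℝ) / T') {f : ℕ → ℂ} (hf : ∀ n, n ≠ 0 → ‖f n‖ ≤ 1) (M : ℕ) {x : ℕ × ℕ}
    (h1 : x.1 ≠ 0) (h2 : x.2 ≠ 0) :
    IntegrableOn (fun t => ((wz κ T' t * ‖DP f M t‖ ^ 2 : ℝ) : ℂ) * mh t x) (Set.Ioi 0) := by
  have hzc : Continuous fun t => ((‖riemannZeta (cl t)‖ ^ 2 : ℝ) : ℂ) :=
    Complex.continuous_ofReal.comp (zc.norm.pow 2)
  have hc : Continuous fun t => ((‖DP f M t‖ ^ 2 : ℝ) : ℂ) * mh t x :=
    (Complex.continuous_ofReal.comp ((DP_cont f M).norm.pow 2)).mul (mh_cont h1 h2)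
  refine (zint (κ := κ) hδ hzc hc (B := (M:ℝ) ^ 2) (fun t => ?_) fun t => ?_).congr
    (Eventually.of_forall fun t => ?_)
  · rw [Complex.norm_real, Real.norm_eq_abs, abs_of_nonneg (by positivity)]
  · rw [norm_mul, Complex.norm_real, Real.norm_eq_abs, abs_of_nonneg (by positivity)]
    calc ‖DP f M t‖ ^ 2 * ‖mh t x‖ ≤ (M:ℝ) ^ 2 * 1 :=
          mul_le_mul (pow_le_pow_left₀ (norm_nonneg _) (DP_norm hf M t) 2) (mh_norm_le h1 h2) (norm_nonneg _)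
            (by positivity)
      _ = (M:ℝ) ^ 2 := mul_one _
  · simp only
    unfold wz
    push_cast
    ring

/-- integrability of the first part -/
lemma vint {κ : ℕ} {T' : ℝ} (hδ : 0 < (κ:ℝ) / T') {f : ℕ → ℂ} (hf : ∀ n, n ≠ 0 → ‖f n‖ ≤ 1) (M : ℕ) {x : ℕ × ℕ}
    (h1 : x.1 ≠ 0) (h2 : x.2 ≠ 0) :
    IntegrableOn (fun t => ((om κ (κ / T') t : ℝ) : ℂ) *
      ((starRingEnd ℂ) (riemannZeta (cl t)) ^ 2 * (DP f M t ^ 2 * mh t x))) (Set.Ioi 0) := by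
  have hzc2 : Continuous fun t => (starRingEnd ℂ) (riemannZeta (cl t)) ^ 2 :=
    (Complex.continuous_conj.comp zc).pow 2
  refine zint hδ hzc2 (((DP_cont f M).pow 2).mul (mh_cont h1 h2)) (B := (M:ℝ) ^ 2) (fun t => ?_) fun t => ?_
  · rw [norm_pow, RCLike.norm_conj]
  · rw [norm_mul, norm_pow]
    calc ‖DP f M t‖ ^ 2 * ‖mh t x‖ ≤ (M:ℝ) ^ 2 * 1 :=
          mul_le_mul (pow_le_pow_left₀ (norm_nonneg _) (DP_norm hf M t) 2) (mh_norm_le h1 h2) (norm_nonneg _)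
            (by positivity)
      _ = (M:ℝ) ^ 2 := mul_one _

/-- the splitting of the twisted moment -/
lemma split_int {κ k M1 M h l : ℕ} {T T' : ℝ} (hδ : 0 < (κ:ℝ) / T') {f1 f2 f3 : ℕ → ℂ}
    (hf1 : ∀ n, n ≠ 0 → ‖f1 n‖ ≤ 1) (hf2 : ∀ n, n ≠ 0 → ‖f2 n‖ ≤ 1) (hf3 : ∀ n, n ≠ 0 → ‖f3 n‖ ≤ 1)
    (e1 : ∀ t, a1 k T t = DP f1 M1 t) (e2 : ∀ t, a2 k T t = DP f2 M t)
    (e3 : ∀ t, a2 k T t - a1 k T t = DP f3 M t) (hh : h ≠ 0) (hl : l ≠ 0) :
    ‖∫ t in Set.Ioi (0:ℝ), ((om κ (κ / T') t * F0 k T t : ℝ) : ℂ) * mh t (h, l)‖ ≤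
      ‖∫ t in Set.Ioi (0 : ℝ), ((om κ (κ / T') t : ℝ) : ℂ) *
        ((starRingEnd ℂ) (riemannZeta (cl t)) ^ 2 * (DP f1 M1 t ^ 2 * mh t (h, l)))‖ +
      ‖∫ t in Set.Ioi (0 : ℝ), ((om κ (κ / T') t : ℝ) : ℂ) *
        ((starRingEnd ℂ) (riemannZeta (cl t)) ^ 2 * (DP f1 M1 t ^ 2 * mh t (l, h)))‖ +
      2 * ‖∫ t in Set.Ioi (0:ℝ), ((wz κ T' t * ‖DP f2 M t‖ ^ 2 : ℝ) : ℂ) * mh t (h, l)‖ +
      ‖∫ t in Set.Ioi (0:ℝ), ((wz κ T' t * ‖DP f3 M t‖ ^ 2 : ℝ) : ℂ) * mh t (h, l)‖ := by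
  set P1 : ℝ → ℂ := fun t => ((om κ (κ / T') t : ℝ) : ℂ) *
        ((starRingEnd ℂ) (riemannZeta (cl t)) ^ 2 * (DP f1 M1 t ^ 2 * mh t (h, l))) with hP1
  set P2 : ℝ → ℂ := fun t => ((om κ (κ / T') t : ℝ) : ℂ) *
        ((starRingEnd ℂ) (riemannZeta (cl t)) ^ 2 * (DP f1 M1 t ^ 2 * mh t (l, h))) with hP2
  set P3 : ℝ → ℂ := fun t => ((wz κ T' t * ‖DP f2 M t‖ ^ 2 : ℝ) : ℂ) * mh t (h, l) with hP3
  set P4 : ℝ → ℂ := fun t => ((wz κ T' t * ‖DP f3 M t‖ ^ 2 : ℝ) : ℂ) * mh t (h, l) with hP4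
  have i1 : IntegrableOn P1 (Set.Ioi 0) := vint hδ hf1 M1 (x := (h, l)) hh hl
  have i2 : IntegrableOn P2 (Set.Ioi 0) := vint hδ hf1 M1 (x := (l, h)) hl hh
  have i3 : IntegrableOn P3 (Set.Ioi 0) := wint hδ hf2 M (x := (h, l)) hh hl
  have i4 : IntegrableOn P4 (Set.Ioi 0) := wint hδ hf3 M (x := (h, l)) hh hl
  have i2' : IntegrableOn (fun t => (starRingEnd ℂ) (P2 t)) (Set.Ioi 0) := by
    have := (Complex.conjCLE.toContinuousLinearMap).integrable_comp i2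
    exact this
  have key : ∀ t, ((om κ (κ / T') t * F0 k T t : ℝ) : ℂ) * mh t (h, l) =
      P1 t + (starRingEnd ℂ) (P2 t) + 2 * P3 t - P4 t := by
    intro t
    have e0 := Complex.add_conj ((starRingEnd ℂ) (riemannZeta (cl t)) ^ 2 * a1 k T t ^ 2)
    rw [hP1, hP2, hP3, hP4]
    simp only
    rw [← e1, ← e2, ← e3, map_mul, map_mul (starRingEnd ℂ) ((starRingEnd ℂ) (riemannZeta (cl t)) ^ 2),
      map_mul (starRingEnd ℂ) (a1 k T t ^ 2), mh_cj t hl hh, Complex.conj_ofReal]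
    rw [map_mul] at e0
    unfold F0 wz
    push_cast
    push_cast at e0
    linear_combination (-(((om κ (κ / T') t : ℝ) : ℂ) * mh t (h, l))) * e0
  have s1 : (∫ t in Set.Ioi (0:ℝ), ((om κ (κ / T') t * F0 k T t : ℝ) : ℂ) * mh t (h, l)) =
      (∫ t in Set.Ioi (0:ℝ), P1 t) + (starRingEnd ℂ) (∫ t in Set.Ioi (0:ℝ), P2 t) +
        2 * (∫ t in Set.Ioi (0:ℝ), P3 t) - ∫ t in Set.Ioi (0:ℝ), P4 t := by
    have j12 : IntegrableOn (fun t => P1 t + (starRingEnd ℂ) (P2 t)) (Set.Ioi 0) := i1.add i2'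
    have j3 : IntegrableOn (fun t => 2 * P3 t) (Set.Ioi 0) := i3.const_mul 2
    have j123 : IntegrableOn (fun t => P1 t + (starRingEnd ℂ) (P2 t) + 2 * P3 t) (Set.Ioi 0) := j12.add j3
    simp_rw [key]
    rw [integral_sub j123 i4, integral_add j12 j3, integral_add i1 i2', integral_conj, integral_const_mul]
  rw [s1]
  refine (norm_sub_le _ _).trans (add_le_add_left ?_ _)
  refine (norm_add_le _ _).trans (add_le_add ?_ ?_)
  · refine (norm_add_le _ _).trans (add_le_add_right ?_ _)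
    rw [RCLike.norm_conj]
  · rw [norm_mul, Complex.norm_ofNat]

theorem t_UB0 (h1 : S_TWC) (h2 : Pool.Agent.TH806.N4.P_FM) (h3 : S_ARS) (k : ℕ) (_hk : 2 ≤ k) : S_UB0 k := by
  obtain ⟨η, hη, hTW⟩ := h1 (517 / 1000) (by norm_num)
  have hFM := h2 (995 / 1000) (by norm_num)
  have hη2 : 0 < min η (1 / 100) / 2 := by
    have : 0 < min η (1 / 100) := lt_min hη (by norm_num)
    linarith
  refine ⟨1 / 1000, min η (1 / 100) / 2, by norm_num, hη2, fun ε hε => ?_⟩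
  obtain ⟨C₀, hC₀, hAR⟩ := h3 ε hε
  refine ⟨14 * C₀ + 16, by positivity, ?_⟩
  obtain ⟨X1, hX1⟩ := eventually_atTop.mp hTW
  obtain ⟨X2, hX2⟩ := eventually_atTop.mp hFM
  filter_upwards [eventually_ge_atTop (2 * X1), eventually_ge_atTop (2 * X2), eventually_ge_atTop (1:ℝ),
    Real.tendsto_log_atTop.eventually_ge_atTop 1000] with T hT1 hT2 hT3 hL1
  intro T' κ hT'1 hT'2 hκ h l hh hl hhT hlT
  have hT0 : 0 < T := by linarith
  have hT'0 : 0 < T' := by linarith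
  have hTW' := hX1 T' (by linarith) κ hκ
  have hFM' := hX2 T' (by linarith) κ hκ
  set L := Real.log T with hLd
  have hL0 : 0 < L := by linarith
  have hl2 := Real.log_two_lt_d9
  have hl2' := Real.log_two_gt_d9
  have hL' : L - 1 ≤ Real.log T' := by
    have := Real.log_le_log (by positivity) hT'1
    rw [Real.log_div hT0.ne' (by norm_num)] at this
    linarith
  have hL'' : Real.log T' ≤ L + 1 := by
    have := Real.log_le_log hT'0 hT'2
    rw [Real.log_mul (by norm_num) hT0.ne'] at this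
    linarith
  have hκ0 : (0:ℝ) < κ := by
    have h4 := hκ.1
    have h5 : 0 < Real.log T' ^ 2 := by
      have : 0 < Real.log T' := by linarith
      positivity
    linarith
  have hκ1 : 1 ≤ κ := by exact_mod_cast hκ0
  have hδ : 0 < (κ:ℝ) / T' := by positivity
  have pw : ∀ x y : ℝ, 0 ≤ y → x * L ≤ y * (L - 1) → T ^ x ≤ T' ^ y := by
    intro x y hy h
    rw [Real.rpow_def_of_pos hT0, Real.rpow_def_of_pos hT'0, ← hLd]
    apply Real.exp_le_exp.mpr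
    have := mul_le_mul_of_nonneg_left hL' hy
    linarith
  have ex : ∀ x : ℝ, Real.exp (x * L) = T ^ x := by
    intro x
    rw [Real.rpow_def_of_pos hT0, ← hLd, mul_comm]
  -- the sums
  set c := 1 / 200 * L / ((k : ℝ) + 1) with hc
  have hc0 : 0 < c := by positivity
  have hkc : ((k + 1 : ℕ) : ℝ) * c = 1 / 200 * L := by
    rw [hc]; push_cast; field_simp
  set D1 := (1 / 2 - 2 * (1 / 200)) * L with hD1
  set D2 := Real.log (T / (2 * Real.pi)) - D1 - 1 / 200 * L with hD2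
  have hD2' : D2 + 1 / 200 * L ≤ 51 / 100 * L := by
    have a5 : 0 ≤ Real.log (2 * Real.pi) := Real.log_nonneg (by have := Real.pi_gt_three; linarith)
    rw [hD2, hD1, Real.log_div hT0.ne' (by positivity), ← hLd]
    linarith
  set M1 := ⌊Real.exp (99 / 200 * L)⌋₊ with hM1
  set M := ⌊Real.exp (51 / 100 * L)⌋₊ with hM
  have hM1T : (M1:ℝ) ≤ T ^ (99 / 200 : ℝ) := by
    rw [← ex]; exact Nat.floor_le (Real.exp_pos _).le
  have hMT : (M:ℝ) ≤ T ^ (51 / 100 : ℝ) := by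
    rw [← ex]; exact Nat.floor_le (Real.exp_pos _).le
  have hM11 : 1 ≤ M1 := by
    rw [hM1]; apply Nat.le_floor
    rw [Nat.cast_one]; exact Real.one_le_exp (by positivity)
  have hM01 : 1 ≤ M := by
    rw [hM]; apply Nat.le_floor
    rw [Nat.cast_one]; exact Real.one_le_exp (by positivity)
  set f1 : ℕ → ℂ := fun m => ((cu (k + 1) c (Real.log m - D1) : ℝ) : ℂ) with hf1
  set f2 : ℕ → ℂ := fun m => ((cu (k + 1) c (Real.log m - D2) : ℝ) : ℂ) with hf2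
  set f3 : ℕ → ℂ := fun m => f2 m - f1 m with hf3
  have n1 : ∀ n, n ≠ 0 → ‖f1 n‖ ≤ 1 := by
    intro n _
    rw [hf1]; simp only
    rw [Complex.norm_real, Real.norm_eq_abs, abs_of_nonneg (cu_nonneg _ _ _ hc0)]
    exact cu_le_one _ _ _ hc0
  have n2 : ∀ n, n ≠ 0 → ‖f2 n‖ ≤ 1 := by
    intro n _
    rw [hf2]; simp only
    rw [Complex.norm_real, Real.norm_eq_abs, abs_of_nonneg (cu_nonneg _ _ _ hc0)]
    exact cu_le_one _ _ _ hc0
  have n3 : ∀ n, n ≠ 0 → ‖f3 n‖ ≤ 1 := by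
    intro n _
    rw [hf3, hf2, hf1]; simp only
    rw [← Complex.ofReal_sub, Complex.norm_real, Real.norm_eq_abs, abs_le]
    have u1 := cu_nonneg (k + 1) c (Real.log n - D1) hc0
    have u2 := cu_nonneg (k + 1) c (Real.log n - D2) hc0
    have u3 := cu_le_one (k + 1) c (Real.log n - D1) hc0
    have u4 := cu_le_one (k + 1) c (Real.log n - D2) hc0
    constructor <;> linarith
  have e1 : ∀ t, a1 k T t = DP f1 M1 t := by
    intro t
    unfold a1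
    rw [← hLd]
    refine cs_DP hc0 ?_ t
    refine Nat.floor_le_floor (Real.exp_le_exp.mpr ?_)
    rw [hkc]
    linarith
  have e1' : ∀ t, a1 k T t = DP f1 M t := by
    intro t
    unfold a1
    rw [← hLd]
    refine cs_DP hc0 ?_ t
    refine Nat.floor_le_floor (Real.exp_le_exp.mpr ?_)
    rw [hkc]
    linarith
  have e2 : ∀ t, a2 k T t = DP f2 M t := by
    intro t
    unfold a2
    rw [← hLd]
    refine cs_DP hc0 ?_ t
    refine Nat.floor_le_floor (Real.exp_le_exp.mpr ?_)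
    rw [hkc]
    exact hD2'
  have e3 : ∀ t, a2 k T t - a1 k T t = DP f3 M t := by
    intro t
    rw [e2, e1', hf3, DP_sub']
  -- the main size
  set G : ℝ := ((h * l : ℕ) : ℝ) ^ ε * (Nat.gcd h l : ℝ) / ((h : ℝ) * l) with hG
  have hG0 : 0 ≤ G := by positivity
  have hGs : ((l * h : ℕ) : ℝ) ^ ε * (Nat.gcd l h : ℝ) / ((l : ℝ) * h) = G := by
    rw [hG, Nat.mul_comm l h, Nat.gcd_comm l h, mul_comm (l:ℝ) h]
  have lgM1 : 0 ≤ 1 + Real.log M1 ∧ 1 + Real.log M1 ≤ L := by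
    have m1 : (1:ℝ) ≤ M1 := by exact_mod_cast hM11
    have m2 := Real.log_nonneg m1
    have m3 : Real.log M1 ≤ 99 / 200 * L := by
      rw [Real.log_le_iff_le_exp (by linarith)]
      exact Nat.floor_le (Real.exp_pos _).le
    constructor <;> linarith
  have lgM : 0 ≤ 1 + Real.log M ∧ 1 + Real.log M ≤ L := by
    have m1 : (1:ℝ) ≤ M := by exact_mod_cast hM01
    have m2 := Real.log_nonneg m1
    have m3 : Real.log M ≤ 51 / 100 * L := by
      rw [Real.log_le_iff_le_exp (by linarith)]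
      exact Nat.floor_le (Real.exp_pos _).le
    constructor <;> linarith
  have hT1' : T ^ (1:ℝ) ≤ T' ^ (1:ℝ) * 2 := by
    rw [Real.rpow_one, Real.rpow_one]; linarith
  have hhT' : (h:ℝ) ≤ T' := by
    refine hhT.trans ((pw (1 / 1000) 1 zero_le_one (by linarith)).trans ?_)
    rw [Real.rpow_one]
  have hlT' : (l:ℝ) ≤ T' := by
    refine hlT.trans ((pw (1 / 1000) 1 zero_le_one (by linarith)).trans ?_)
    rw [Real.rpow_one]
  have mm : ∀ j : ℕ, (j:ℝ) ≤ T ^ (1 / 1000 : ℝ) → ((M1 * M1 * j : ℕ) : ℝ) ≤ T' ^ (995 / 1000 : ℝ) := by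
    intro j hj
    refine le_trans ?_ (pw (991 / 1000) (995 / 1000) (by norm_num) (by linarith))
    have e : T ^ (991 / 1000 : ℝ) = T ^ (99 / 200 : ℝ) * T ^ (99 / 200 : ℝ) * T ^ (1 / 1000 : ℝ) := by
      rw [← Real.rpow_add hT0, ← Real.rpow_add hT0]; norm_num
    rw [e]
    push_cast
    gcongr
  have er : (M1 : ℝ) ^ 2 * T' ^ (-1 : ℝ) ≤ 2 * T ^ (-(1 / 100) : ℝ) := by
    have q1 : (M1 : ℝ) ^ 2 ≤ T ^ (99 / 100 : ℝ) := by
      calc (M1 : ℝ) ^ 2 ≤ (T ^ (99 / 200 : ℝ)) ^ 2 := pow_le_pow_left₀ (Nat.cast_nonneg _) hM1T 2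
        _ = T ^ (99 / 100 : ℝ) := by
          rw [sq, ← Real.rpow_add hT0]; norm_num
    have q2 : T' ^ (-1 : ℝ) ≤ 2 * T ^ (-1 : ℝ) := by
      rw [Real.rpow_neg_one, Real.rpow_neg_one, ← div_eq_mul_inv, inv_eq_one_div,
        div_le_div_iff₀ hT'0 hT0]
      linarith
    calc (M1 : ℝ) ^ 2 * T' ^ (-1 : ℝ) ≤ T ^ (99 / 100 : ℝ) * (2 * T ^ (-1 : ℝ)) := by gcongr
      _ = 2 * (T ^ (99 / 100 : ℝ) * T ^ (-1 : ℝ)) := by ring
      _ = 2 * T ^ (-(1 / 100) : ℝ) := by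
        rw [← Real.rpow_add hT0]; norm_num
  have first : ∀ h l : ℕ, 1 ≤ h → 1 ≤ l → (h:ℝ) ≤ T ^ (1 / 1000 : ℝ) → (l:ℝ) ≤ T' →
      ((h * l : ℕ) : ℝ) ^ ε * (Nat.gcd h l : ℝ) / ((h : ℝ) * l) = G →
      ‖∫ t in Set.Ioi (0 : ℝ), ((om κ (κ / T') t : ℝ) : ℂ) *
        ((starRingEnd ℂ) (riemannZeta (cl t)) ^ 2 * (DP f1 M1 t ^ 2 * mh t (h, l)))‖ ≤
      C₀ * L ^ 4 * G + 2 * T ^ (-(1 / 100) : ℝ) := by
    intro h l hh hl hhT hlT' hGe
    refine (fm_bound hδ hFM' n1 hh hl (mm h hhT) hlT' hT'0.le).trans (add_le_add ?_ er)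
    refine ((hAR M1 h l hM11 hh hl).1).trans ?_
    rw [hGe]
    have : (1 + Real.log M1) ^ 4 ≤ L ^ 4 := pow_le_pow_left₀ lgM1.1 lgM1.2 4
    gcongr
  -- the second part
  have hBh : h ≤ ⌊T ^ (1 / 1000 : ℝ)⌋₊ := Nat.le_floor hhT
  have hBl : l ≤ ⌊T ^ (1 / 1000 : ℝ)⌋₊ := Nat.le_floor hlT
  have mb : ∀ j : ℕ, (j:ℝ) ≤ T ^ (1 / 1000 : ℝ) → ((M * j : ℕ) : ℝ) ≤ T ^ (511 / 1000 : ℝ) := by
    intro j hj
    have e : T ^ (511 / 1000 : ℝ) = T ^ (51 / 100 : ℝ) * T ^ (1 / 1000 : ℝ) := by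
      rw [← Real.rpow_add hT0]; norm_num
    rw [e]
    push_cast
    gcongr
  have mT : T ^ (511 / 1000 : ℝ) ≤ T := by
    calc T ^ (511 / 1000 : ℝ) ≤ T ^ (1:ℝ) := Real.rpow_le_rpow_of_exponent_le hT3 (by norm_num)
      _ = T := Real.rpow_one T
  have hMB : ((M * ⌊T ^ (1 / 1000 : ℝ)⌋₊ : ℕ) : ℝ) ≤ T' ^ (517 / 1000 : ℝ) :=
    (mb _ (Nat.floor_le (by positivity))).trans (pw (511 / 1000) (517 / 1000) (by norm_num) (by linarith))
  have hlg : |Real.log (Yf κ T') + Ck κ| ≤ 2 * L := lg_bound hκ1 hT'0 (by linarith) (by linarith)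
  have second : ∀ f : ℕ → ℂ, (∀ n, n ≠ 0 → ‖f n‖ ≤ 1) →
      ‖∫ t in Set.Ioi (0:ℝ), ((wz κ T' t * ‖DP f M t‖ ^ 2 : ℝ) : ℂ) * mh t (h, l)‖ ≤
      4 * (C₀ * L ^ 4 * G) + 4 * T' ^ (-η) := by
    intro f hf
    have w1' := hTW' M ⌊T ^ (1 / 1000 : ℝ)⌋₊ f hf hMB (h, l) (by simp only; omega) (by simp only; omega) hBh hBl
    have w2' := bf_bound (κ := κ) (T' := T') hf hh hl hlg ((mb h hhT).trans mT) ((mb l hlT).trans mT)
    have w3' : (2 * L + 2 * Real.log T) *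
        ∑ m ∈ Icc 1 M, ∑ n ∈ Icc 1 M, (Nat.gcd (m * h) (n * l) : ℝ) / ((m : ℝ) * h * (n * l)) ≤
        4 * (C₀ * L ^ 4 * G) := by
      rw [← hLd]
      have w4' := (hAR M h l hM01 hh hl).2
      rw [← hG] at w4'
      have : (1 + Real.log M) ^ 3 ≤ L ^ 3 := pow_le_pow_left₀ lgM.1 lgM.2 3
      calc (2 * L + 2 * L) * _ ≤ (2 * L + 2 * L) * (C₀ * (1 + Real.log M) ^ 3 * G) :=
            mul_le_mul_of_nonneg_left w4' (by positivity)
        _ ≤ (2 * L + 2 * L) * (C₀ * L ^ 3 * G) := by gcongr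
        _ = 4 * (C₀ * L ^ 4 * G) := by ring
    set J := ∫ t in Set.Ioi (0:ℝ), ((wz κ T' t * ‖DP f M t‖ ^ 2 : ℝ) : ℂ) * mh t (h, l) with hJ
    have w5' := norm_add_le (BF κ T' f M (h, l)) (J - BF κ T' f M (h, l))
    rw [add_sub_cancel] at w5'
    linarith
  -- the errors
  have t1 : T ^ (-(1 / 100) : ℝ) ≤ T ^ (-(min η (1 / 100) / 2)) := by
    apply Real.rpow_le_rpow_of_exponent_le hT3
    have := min_le_right η (1 / 100)
    linarith
  have t2 : T' ^ (-η) ≤ T ^ (-(min η (1 / 100) / 2)) := by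
    rw [Real.rpow_def_of_pos hT0, Real.rpow_def_of_pos hT'0, ← hLd]
    apply Real.exp_le_exp.mpr
    have q1 := min_le_left η (1 / 100)
    have q2 : η * (L - 1) ≤ η * Real.log T' := mul_le_mul_of_nonneg_left hL' hη.le
    have q3 : min η (1 / 100) * L ≤ η * L := mul_le_mul_of_nonneg_right q1 hL0.le
    have q4 : η * (L / 2) ≤ η * (L - 1) := mul_le_mul_of_nonneg_left (by linarith) hη.le
    linarith
  have b0 := split_int (κ := κ) (k := k) (M1 := M1) (M := M) (h := h) (l := l) (T := T) (T' := T') hδ n1 n2 n3 e1 e2 e3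
    (by omega) (by omega)
  have b1 := first h l hh hl hhT hlT' rfl
  have b2 := first l h hl hh hlT hhT' hGs
  have b3 := second f2 n2
  have b4 := second f3 n3
  have x0 : 0 ≤ C₀ * L ^ 4 * G := by positivity
  have x1 : 0 ≤ L ^ 4 * G := by positivity
  have x2 : 0 ≤ T ^ (-(min η (1 / 100) / 2)) := by positivity
  have x3 : 0 ≤ C₀ * T ^ (-(min η (1 / 100) / 2)) := by positivity
  calc _ ≤ 14 * (C₀ * L ^ 4 * G) + 16 * T ^ (-(min η (1 / 100) / 2)) := by linarith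
    _ ≤ (14 * C₀ + 16) * (L ^ 4 * G + T ^ (-(min η (1 / 100) / 2))) := by
      have : (14 * C₀ + 16) * (L ^ 4 * G + T ^ (-(min η (1 / 100) / 2))) = 14 * (C₀ * L ^ 4 * G) +
        16 * T ^ (-(min η (1 / 100) / 2)) + 16 * (L ^ 4 * G) + 14 * (C₀ * T ^ (-(min η (1 / 100) / 2))) := by ring
      rw [this]
      linarith

end

end Pool.Agent.Y809.SX
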